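import Mathlib

/-!
# An everywhere divergent real trigonometric series with coefficients in every `ℓ^p`, `p > 2`

Orlicz's question (Scottish Book).  On the block `16^L ≤ n < 16^(L+1)` put
`a_n cos nx + b_n sin nx = 4^(-L) cos (n x + π n² / 16^L)`.  The coefficients are `O(n^(-1/2))`, and
for every `x` each block contains a place of stationary phase, where about `4^L` consecutive terms
do not oscillate; two windows there, whose phases differ by about `π/2`, cannot both have small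
sums.
-/

namespace Pool.Agent.Results.MP_85199e_an.EverywhereDivergent

open Filter Topology Finset

/-- The `N`-th partial sum `S_N(x) = ∑_{n=1}^N (a_n cos nx + b_n sin nx)`. -/
noncomputable def partialSum (a b : ℕ → ℝ) (N : ℕ) (x : ℝ) : ℝ :=
  ∑ n ∈ Finset.Icc 1 N, (a n * Real.cos (n * x) + b n * Real.sin (n * x))

/-- cosine coefficients -/
noncomputable def ca (n : ℕ) : ℝ :=
  Real.cos (Real.pi * (n : ℝ) ^ 2 / 16 ^ Nat.log 16 n) / 4 ^ Nat.log 16 n

/-- sine coefficients -/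
noncomputable def cb (n : ℕ) : ℝ :=
  - Real.sin (Real.pi * (n : ℝ) ^ 2 / 16 ^ Nat.log 16 n) / 4 ^ Nat.log 16 n

theorem sixteen_pow (L : ℕ) : (16 : ℝ) ^ L = ((4 : ℝ) ^ L) ^ 2 := by
  rw [← pow_mul, mul_comm L 2, pow_mul]; norm_num

theorem four_pow_lower (n : ℕ) : Real.sqrt n ≤ 4 * 4 ^ Nat.log 16 n := by
  have h1 : n < 16 ^ (Nat.log 16 n + 1) := Nat.lt_pow_succ_log_self (by norm_num) n
  have h2 : (n : ℝ) ≤ (4 * 4 ^ Nat.log 16 n) ^ 2 := by
    have h3 : (n : ℝ) < 16 ^ (Nat.log 16 n + 1) := by exact_mod_cast h1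
    have h4 : ((4 : ℝ) * 4 ^ Nat.log 16 n) ^ 2 = 16 ^ (Nat.log 16 n + 1) := by
      rw [mul_pow, ← sixteen_pow, pow_succ]
      norm_num
      ring
    rw [h4]; exact h3.le
  exact Real.sqrt_le_iff.mpr ⟨by positivity, h2⟩

theorem inv_four_pow_le {n : ℕ} (hn : 1 ≤ n) : 1 / (4 : ℝ) ^ Nat.log 16 n ≤ 4 / Real.sqrt n := by
  have h := four_pow_lower n
  have hs : 0 < Real.sqrt n := Real.sqrt_pos.mpr (by exact_mod_cast hn)
  rw [div_le_div_iff₀ (by positivity) hs]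
  linarith

theorem abs_ca_le {n : ℕ} (hn : 1 ≤ n) : |ca n| ≤ 4 / Real.sqrt n := by
  refine le_trans ?_ (inv_four_pow_le hn)
  unfold ca
  rw [abs_div, abs_of_pos (by positivity : (0 : ℝ) < 4 ^ Nat.log 16 n)]
  exact div_le_div_of_nonneg_right (Real.abs_cos_le_one _) (by positivity)

theorem abs_cb_le {n : ℕ} (hn : 1 ≤ n) : |cb n| ≤ 4 / Real.sqrt n := by
  refine le_trans ?_ (inv_four_pow_le hn)
  unfold cb
  rw [abs_div, abs_neg, abs_of_pos (by positivity : (0 : ℝ) < 4 ^ Nat.log 16 n)]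
  exact div_le_div_of_nonneg_right (Real.abs_sin_le_one _) (by positivity)

theorem sq_sum_le {n : ℕ} (hn : 1 ≤ n) : ca n ^ 2 + cb n ^ 2 ≤ 16 / n := by
  have h : ca n ^ 2 + cb n ^ 2 = (1 / (4 : ℝ) ^ Nat.log 16 n) ^ 2 := by
    unfold ca cb
    rw [div_pow, div_pow, neg_sq, ← add_div, Real.cos_sq_add_sin_sq, div_pow, one_pow]
  rw [h]
  have h2 := inv_four_pow_le hn
  have hs : (Real.sqrt n) ^ 2 = n := Real.sq_sqrt (by positivity)
  calc (1 / (4 : ℝ) ^ Nat.log 16 n) ^ 2 ≤ (4 / Real.sqrt (n : ℝ)) ^ 2 :=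
        pow_le_pow_left₀ (by positivity) h2 2
    _ = 16 / (n : ℝ) := by rw [div_pow, hs]; norm_num

theorem summable_bound {ε : ℝ} (hε : 0 < ε) :
    Summable (fun n : ℕ => |ca n| ^ (2 + ε) + |cb n| ^ (2 + ε)) := by
  have hp : Summable (fun n : ℕ => 1 / (n : ℝ) ^ (1 + ε / 2)) :=
    Real.summable_one_div_nat_rpow.mpr (by linarith)
  have hs : Summable (fun n : ℕ => (2 * (4 : ℝ) ^ (2 + ε)) * (1 / (n : ℝ) ^ (1 + ε / 2))) :=
    hp.mul_left _
  refine Summable.of_norm_bounded_eventually_nat hs ?_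
  filter_upwards [eventually_ge_atTop 1] with n hn
  have hn0 : (0 : ℝ) < n := by exact_mod_cast hn
  have key : (4 / Real.sqrt n) ^ (2 + ε) = (4 : ℝ) ^ (2 + ε) * (1 / (n : ℝ) ^ (1 + ε / 2)) := by
    rw [Real.div_rpow (by norm_num) (Real.sqrt_nonneg _), Real.sqrt_eq_rpow,
      ← Real.rpow_mul hn0.le]
    have : (1 / 2 : ℝ) * (2 + ε) = 1 + ε / 2 := by ring
    rw [this]; ring
  have h1 : |ca n| ^ (2 + ε) ≤ (4 / Real.sqrt n) ^ (2 + ε) :=
    Real.rpow_le_rpow (abs_nonneg _) (abs_ca_le hn) (by linarith)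
  have h2 : |cb n| ^ (2 + ε) ≤ (4 / Real.sqrt n) ^ (2 + ε) :=
    Real.rpow_le_rpow (abs_nonneg _) (abs_cb_le hn) (by linarith)
  rw [key] at h1 h2
  rw [Real.norm_of_nonneg (by positivity)]
  linarith

/-- the `n`-th term is a single cosine -/
theorem term_eq (n : ℕ) (x : ℝ) :
    ca n * Real.cos (n * x) + cb n * Real.sin (n * x) =
      Real.cos (n * x + Real.pi * (n : ℝ) ^ 2 / 16 ^ Nat.log 16 n) / 4 ^ Nat.log 16 n := by
  unfold ca cb
  rw [Real.cos_add]; ring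

theorem partialSum_sub (a b : ℕ → ℝ) (x : ℝ) (n₀ p q : ℕ) (hpq : p ≤ q) :
    partialSum a b (n₀ + q) x - partialSum a b (n₀ + p) x =
      ∑ k ∈ Finset.Ioc p q, (a (n₀ + k) * Real.cos ((n₀ + k : ℕ) * x)
        + b (n₀ + k) * Real.sin ((n₀ + k : ℕ) * x)) := by
  unfold partialSum
  have h1 : ∀ N : ℕ, Finset.Icc 1 N = Finset.Ioc 0 N := fun N => by ext; simp [Nat.lt_iff_add_one_le]
  rw [h1, h1, ← Finset.sum_Ioc_consecutive _ (Nat.zero_le (n₀ + p)) (Nat.add_le_add_left hpq n₀),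
    add_sub_cancel_left]
  rw [← Finset.map_add_left_Ioc p q n₀, Finset.sum_map]
  simp

/-- The algebra at the end: two windows cannot both be small. -/
theorem window_algebra {c s A1 B1 A2 B2 m e1 e2 : ℝ} (hcs : c ^ 2 + s ^ 2 = 1) (hm : 0 < m)
    (hA1l : 2 * m ≤ A1) (hA1u : A1 ≤ 4 * m) (hB1l : 0 ≤ B1) (hB1u : B1 ≤ 4 * m)
    (hA2l : -m ≤ A2) (hA2u : A2 ≤ 0) (hB2l : m / 2 ≤ B2) (hB2u : B2 ≤ m)
    (h1 : c * A1 - s * B1 = 8 * m * e1) (h2 : c * A2 - s * B2 = 8 * m * e2)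
    (he1 : |e1| < 1 / 100) (he2 : |e2| < 1 / 100) : False := by
  rw [abs_lt] at he1 he2
  obtain ⟨he1l, he1u⟩ := he1
  obtain ⟨he2l, he2u⟩ := he2
  have hB2p : 0 ≤ B2 := by linarith
  have hA1p : 0 ≤ A1 := by linarith
  set D := A1 * B2 - A2 * B1 with hD
  have hDl : m ^ 2 ≤ D := by nlinarith [mul_nonneg hB1l (neg_nonneg.mpr hA2u), mul_nonneg (sub_nonneg.mpr hA1l) hB2p, mul_nonneg (sub_nonneg.mpr hB2l) hm.le]
  have hc : c * D = 8 * m * (e1 * B2 - e2 * B1) := by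
    have : c * D = (c * A1 - s * B1) * B2 - (c * A2 - s * B2) * B1 := by rw [hD]; ring
    rw [this, h1, h2]; ring
  have hs : s * D = 8 * m * (e1 * A2 - e2 * A1) := by
    have : s * D = (c * A1 - s * B1) * A2 - (c * A2 - s * B2) * A1 := by rw [hD]; ring
    rw [this, h1, h2]; ring
  have b1 : |e1 * B2 - e2 * B1| ≤ m / 20 := by
    have t1 : |e1 * B2| ≤ 1 / 100 * m := by
      rw [abs_mul, abs_of_nonneg hB2p]
      exact mul_le_mul (abs_le.mpr ⟨by linarith, by linarith⟩) hB2u hB2p (by norm_num)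
    have t2 : |e2 * B1| ≤ 1 / 100 * (4 * m) := by
      rw [abs_mul, abs_of_nonneg hB1l]
      exact mul_le_mul (abs_le.mpr ⟨by linarith, by linarith⟩) hB1u hB1l (by norm_num)
    calc |e1 * B2 - e2 * B1| ≤ |e1 * B2| + |e2 * B1| := abs_sub _ _
      _ ≤ m / 20 := by linarith
  have b2 : |e1 * A2 - e2 * A1| ≤ m / 20 := by
    have t1 : |e1 * A2| ≤ 1 / 100 * m := by
      rw [abs_mul]
      exact mul_le_mul (abs_le.mpr ⟨by linarith, by linarith⟩)
        (abs_le.mpr ⟨by linarith, by linarith⟩) (abs_nonneg _) (by norm_num)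
    have t2 : |e2 * A1| ≤ 1 / 100 * (4 * m) := by
      rw [abs_mul, abs_of_nonneg hA1p]
      exact mul_le_mul (abs_le.mpr ⟨by linarith, by linarith⟩) hA1u hA1p (by norm_num)
    calc |e1 * A2 - e2 * A1| ≤ |e1 * A2| + |e2 * A1| := abs_sub _ _
      _ ≤ m / 20 := by linarith
  have q1 : (c * D) ^ 2 ≤ (2 / 5 * m ^ 2) ^ 2 := by
    rw [hc]
    apply sq_le_sq'
    · have := (abs_le.mp b1).1
      nlinarith
    · have := (abs_le.mp b1).2
      nlinarith
  have q2 : (s * D) ^ 2 ≤ (2 / 5 * m ^ 2) ^ 2 := by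
    rw [hs]
    apply sq_le_sq'
    · have := (abs_le.mp b2).1
      nlinarith
    · have := (abs_le.mp b2).2
      nlinarith
  have q3 : D ^ 2 = (c * D) ^ 2 + (s * D) ^ 2 := by
    have : (c * D) ^ 2 + (s * D) ^ 2 = (c ^ 2 + s ^ 2) * D ^ 2 := by ring
    rw [this, hcs, one_mul]
  have q4 : (m ^ 2) ^ 2 ≤ D ^ 2 := by
    apply pow_le_pow_left₀ (by positivity) hDl
  have q5 : 0 < (m ^ 2) ^ 2 := by positivity
  nlinarith

/-- For every `x` and every `i ≥ 1`, beyond `16^(i+2)` two differences of partial sums are not both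
smaller than `1/100`. -/
theorem block_oscillation (x : ℝ) (i : ℕ) (hi : 1 ≤ i) :
    ¬ (∀ p q : ℕ, 16 ^ (i + 2) ≤ p → 16 ^ (i + 2) ≤ q →
      |partialSum ca cb q x - partialSum ca cb p x| < 1 / 100) := by
  intro hC
  set j := i + 2 with hj
  set m : ℕ := 2 * 4 ^ i with hm
  have hM : (4 : ℕ) ^ j = 8 * m := by rw [hj, hm, pow_add]; ring
  have hN : (16 : ℕ) ^ j = 64 * m ^ 2 := by
    have : (16 : ℕ) ^ j = (4 ^ j) ^ 2 := by rw [← pow_mul, mul_comm j 2, pow_mul]; norm_num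
    rw [this, hM]; ring
  have hm8 : 8 ≤ m := by
    have : 4 ^ 1 ≤ 4 ^ i := Nat.pow_le_pow_right (by norm_num) hi
    omega
  have hmR : (8 : ℝ) ≤ m := by exact_mod_cast hm8
  have hm0 : (0 : ℝ) < m := by linarith
  set N : ℕ := 16 ^ j with hNdef
  have hNR : (N : ℝ) = 64 * (m : ℝ) ^ 2 := by rw [hN]; push_cast; ring
  have hN0 : (0 : ℝ) < N := by rw [hNR]; positivity
  have hNZ : (0 : ℤ) < (N : ℤ) := by exact_mod_cast (by positivity : 0 < N)
  -- stationary point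
  set t : ℝ := -x * N / (2 * Real.pi) with ht
  set z : ℤ := ⌈t⌉ with hz
  have hz1 : t ≤ z := Int.le_ceil t
  have hz2 : (z : ℝ) < t + 1 := Int.ceil_lt_add_one t
  set r : ℕ := (z % (N : ℤ)).toNat with hr
  have hrnn : 0 ≤ z % (N : ℤ) := Int.emod_nonneg _ hNZ.ne'
  have hrlt : z % (N : ℤ) < N := Int.emod_lt_of_pos _ hNZ
  have hrZ : (r : ℤ) = z % (N : ℤ) := by rw [hr]; exact Int.toNat_of_nonneg hrnn
  have hrN : r < N := by exact_mod_cast (hrZ ▸ hrlt)
  have hrR : (r : ℝ) = z - N * ((z / (N : ℤ) : ℤ) : ℝ) := by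
    have h1 : (r : ℤ) = z - N * (z / (N : ℤ)) := by
      rw [hrZ]; exact Int.emod_def z N
    exact_mod_cast h1
  set n₀ : ℕ := N + r with hn₀
  set η : ℝ := 2 * Real.pi * (z - t) / N with hη
  have hpi := Real.pi_pos
  have hη0 : 0 ≤ η := by
    rw [hη]; apply div_nonneg _ hN0.le
    apply mul_nonneg (by positivity); linarith
  have hη1 : η ≤ 2 * Real.pi / N := by
    rw [hη]; apply div_le_div_of_nonneg_right _ hN0.le
    have : (z : ℝ) - t ≤ 1 := by linarith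
    nlinarith
  have hηx : x + 2 * Real.pi * n₀ / N = η + 2 * Real.pi * (1 - ((z / (N : ℤ) : ℤ) : ℝ)) := by
    rw [hη, hn₀, ht]; push_cast; rw [hrR]; field_simp; ring
  set θ : ℝ := n₀ * x + Real.pi * (n₀ : ℝ) ^ 2 / N with hθ
  let φ : ℕ → ℝ := fun k => k * η + Real.pi * (k : ℝ) ^ 2 / N
  -- the terms
  have hterm : ∀ k : ℕ, k ≤ 7 * m → ca (n₀ + k) * Real.cos ((n₀ + k : ℕ) * x)
        + cb (n₀ + k) * Real.sin ((n₀ + k : ℕ) * x) =
      (Real.cos θ * Real.cos (φ k) - Real.sin θ * Real.sin (φ k)) / (8 * m) := by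
    intro k hk
    have hlog : Nat.log 16 (n₀ + k) = j := by
      apply Nat.log_eq_of_pow_le_of_lt_pow
      · change N ≤ n₀ + k
        omega
      · rw [pow_succ]
        change n₀ + k < N * 16
        have : 7 * m ≤ N := by rw [hN]; nlinarith
        omega
    rw [term_eq, hlog]
    have hNR' : (16 : ℝ) ^ j = N := by rw [hNdef]; push_cast; ring
    have hMR : (4 : ℝ) ^ j = 8 * m := by exact_mod_cast hM
    rw [hNR', hMR, ← Real.cos_add]
    congr 1
    have hl : ((n₀ + k : ℕ) : ℝ) * x + Real.pi * ((n₀ + k : ℕ) : ℝ) ^ 2 / N =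
        (θ + φ k) + ((k : ℤ) * (1 - z / (N : ℤ)) : ℤ) * (2 * Real.pi) := by
      have h1 : ((n₀ + k : ℕ) : ℝ) * x + Real.pi * ((n₀ + k : ℕ) : ℝ) ^ 2 / N =
        θ + k * (x + 2 * Real.pi * n₀ / N) + Real.pi * (k : ℝ) ^ 2 / N := by
        rw [hθ]; push_cast; field_simp; ring
      rw [h1, hηx]
      simp only [φ]
      push_cast
      ring
    rw [hl, Real.cos_add_int_mul_two_pi]
  -- the bounds for the phases
  have hφ1 : ∀ k : ℕ, k ∈ Finset.Ioc 0 (4 * m) → 0 ≤ φ k ∧ φ k ≤ Real.pi / 3 := by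
    intro k hk
    rw [Finset.mem_Ioc] at hk
    have hkR : (k : ℝ) ≤ 4 * m := by exact_mod_cast hk.2
    have hk0 : (0 : ℝ) ≤ k := by positivity
    refine ⟨by simp only [φ]; positivity, ?_⟩
    simp only [φ]
    have h1 : (k : ℝ) * η ≤ (4 * m) * (2 * Real.pi / N) :=
      mul_le_mul hkR hη1 hη0 (by positivity)
    have h2 : (k : ℝ) ^ 2 ≤ (4 * m) ^ 2 := pow_le_pow_left₀ hk0 hkR 2
    have h3 : Real.pi * (k : ℝ) ^ 2 / N ≤ Real.pi * (4 * m) ^ 2 / N :=
      div_le_div_of_nonneg_right (mul_le_mul_of_nonneg_left h2 hpi.le) hN0.le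
    have h4 : (4 * m : ℝ) * (2 * Real.pi / N) = Real.pi / (8 * m) := by
      rw [hNR]; field_simp; ring
    have h5 : Real.pi * (4 * m : ℝ) ^ 2 / N = Real.pi / 4 := by
      rw [hNR]; field_simp; ring
    have h6 : Real.pi / (8 * m) ≤ Real.pi / 64 :=
      div_le_div_of_nonneg_left hpi.le (by norm_num) (by linarith)
    linarith
  have hφ2 : ∀ k : ℕ, k ∈ Finset.Ioc (6 * m) (7 * m) →
      Real.pi / 2 ≤ φ k ∧ φ k ≤ 5 * Real.pi / 6 := by
    intro k hk
    rw [Finset.mem_Ioc] at hk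
    have hkR : (k : ℝ) ≤ 7 * m := by exact_mod_cast hk.2
    have hkL : 6 * (m : ℝ) ≤ k := by exact_mod_cast hk.1.le
    have hk0 : (0 : ℝ) ≤ k := by positivity
    constructor
    · simp only [φ]
      have h2 : (6 * (m : ℝ)) ^ 2 ≤ (k : ℝ) ^ 2 := pow_le_pow_left₀ (by positivity) hkL 2
      have h3 : Real.pi * (6 * m) ^ 2 / N ≤ Real.pi * (k : ℝ) ^ 2 / N :=
        div_le_div_of_nonneg_right (mul_le_mul_of_nonneg_left h2 hpi.le) hN0.le
      have h5 : Real.pi * (6 * m : ℝ) ^ 2 / N = Real.pi * (36 / 64) := by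
        rw [hNR]; field_simp; ring
      have h6 : 0 ≤ (k : ℝ) * η := by positivity
      linarith
    · simp only [φ]
      have h1 : (k : ℝ) * η ≤ (7 * m) * (2 * Real.pi / N) :=
        mul_le_mul hkR hη1 hη0 (by positivity)
      have h2 : (k : ℝ) ^ 2 ≤ (7 * m) ^ 2 := pow_le_pow_left₀ hk0 hkR 2
      have h3 : Real.pi * (k : ℝ) ^ 2 / N ≤ Real.pi * (7 * m) ^ 2 / N :=
        div_le_div_of_nonneg_right (mul_le_mul_of_nonneg_left h2 hpi.le) hN0.le
      have h4 : (7 * m : ℝ) * (2 * Real.pi / N) = 7 * Real.pi / (32 * m) := by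
        rw [hNR]; field_simp; ring
      have h5 : Real.pi * (7 * m : ℝ) ^ 2 / N = Real.pi * (49 / 64) := by
        rw [hNR]; field_simp; ring
      have h6 : 7 * Real.pi / (32 * m) ≤ 7 * Real.pi / 256 :=
        div_le_div_of_nonneg_left (by positivity) (by norm_num) (by linarith)
      linarith
  -- bounds for the four window sums
  set A1 : ℝ := ∑ k ∈ Finset.Ioc 0 (4 * m), Real.cos (φ k) with hA1
  set B1 : ℝ := ∑ k ∈ Finset.Ioc 0 (4 * m), Real.sin (φ k) with hB1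
  set A2 : ℝ := ∑ k ∈ Finset.Ioc (6 * m) (7 * m), Real.cos (φ k) with hA2
  set B2 : ℝ := ∑ k ∈ Finset.Ioc (6 * m) (7 * m), Real.sin (φ k) with hB2
  have card1 : (Finset.Ioc 0 (4 * m)).card = 4 * m := by simp
  have card2 : (Finset.Ioc (6 * m) (7 * m)).card = m := by simp; omega
  have hA1l : 2 * (m : ℝ) ≤ A1 := by
    have h := Finset.card_nsmul_le_sum (Finset.Ioc 0 (4 * m)) (fun k => Real.cos (φ k)) (1 / 2)
      (fun k hk => by
        obtain ⟨h0, h1⟩ := hφ1 k hk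
        rw [← Real.cos_pi_div_three]
        exact Real.cos_le_cos_of_nonneg_of_le_pi h0 (by linarith) h1)
    rw [card1, nsmul_eq_mul] at h
    push_cast at h
    linarith
  have hA1u : A1 ≤ 4 * m := by
    have h := Finset.sum_le_card_nsmul (Finset.Ioc 0 (4 * m)) (fun k => Real.cos (φ k)) 1
      (fun k _ => Real.cos_le_one _)
    rw [card1, nsmul_eq_mul] at h
    push_cast at h
    linarith
  have hB1l : 0 ≤ B1 := Finset.sum_nonneg (fun k hk => by
    obtain ⟨h0, h1⟩ := hφ1 k hk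
    exact Real.sin_nonneg_of_nonneg_of_le_pi h0 (by linarith))
  have hB1u : B1 ≤ 4 * m := by
    have h := Finset.sum_le_card_nsmul (Finset.Ioc 0 (4 * m)) (fun k => Real.sin (φ k)) 1
      (fun k _ => Real.sin_le_one _)
    rw [card1, nsmul_eq_mul] at h
    push_cast at h
    linarith
  have hA2l : -(m : ℝ) ≤ A2 := by
    have h := Finset.card_nsmul_le_sum (Finset.Ioc (6 * m) (7 * m)) (fun k => Real.cos (φ k)) (-1)
      (fun k _ => Real.neg_one_le_cos _)
    rw [card2, nsmul_eq_mul] at h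
    linarith
  have hA2u : A2 ≤ 0 := Finset.sum_nonpos (fun k hk => by
    obtain ⟨h0, h1⟩ := hφ2 k hk
    exact Real.cos_nonpos_of_pi_div_two_le_of_le h0 (by linarith))
  have hB2l : (m : ℝ) / 2 ≤ B2 := by
    have h := Finset.card_nsmul_le_sum (Finset.Ioc (6 * m) (7 * m)) (fun k => Real.sin (φ k)) (1 / 2)
      (fun k hk => by
        obtain ⟨h0, h1⟩ := hφ2 k hk
        rw [← Real.sin_pi_div_six, ← Real.sin_pi_sub (φ k)]
        exact Real.sin_le_sin_of_le_of_le_pi_div_two (by linarith) (by linarith) (by linarith))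
    rw [card2, nsmul_eq_mul] at h
    linarith
  have hB2u : B2 ≤ m := by
    have h := Finset.sum_le_card_nsmul (Finset.Ioc (6 * m) (7 * m)) (fun k => Real.sin (φ k)) 1
      (fun k _ => Real.sin_le_one _)
    rw [card2, nsmul_eq_mul] at h
    linarith
  -- the two differences of partial sums
  have hd1 : partialSum ca cb (n₀ + 4 * m) x - partialSum ca cb (n₀ + 0) x =
      (Real.cos θ * A1 - Real.sin θ * B1) / (8 * m) := by
    rw [partialSum_sub _ _ _ _ _ _ (Nat.zero_le _),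
      Finset.sum_congr rfl (fun k hk => hterm k (by rw [Finset.mem_Ioc] at hk; omega)),
      ← Finset.sum_div, Finset.sum_sub_distrib, ← Finset.mul_sum, ← Finset.mul_sum]
  have hd2 : partialSum ca cb (n₀ + 7 * m) x - partialSum ca cb (n₀ + 6 * m) x =
      (Real.cos θ * A2 - Real.sin θ * B2) / (8 * m) := by
    rw [partialSum_sub _ _ _ _ _ _ (by omega),
      Finset.sum_congr rfl (fun k hk => hterm k (by rw [Finset.mem_Ioc] at hk; omega)),
      ← Finset.sum_div, Finset.sum_sub_distrib, ← Finset.mul_sum, ← Finset.mul_sum]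
  have he1 := hC (n₀ + 0) (n₀ + 4 * m) (by omega) (by omega)
  have he2 := hC (n₀ + 6 * m) (n₀ + 7 * m) (by omega) (by omega)
  rw [hd1] at he1
  rw [hd2] at he2
  refine window_algebra (Real.cos_sq_add_sin_sq θ) hm0 hA1l hA1u hB1l hB1u hA2l hA2u hB2l hB2u
    ?_ ?_ he1 he2
  · field_simp
  · field_simp

/-- **Orlicz's question, answered affirmatively.**  There is a real trigonometric series
`∑_{n ≥ 1} (a_n cos nx + b_n sin nx)` which diverges at every real `x` although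
`∑ (|a_n|^(2+ε) + |b_n|^(2+ε)) < ∞` for every `ε > 0`; moreover `a_n² + b_n² ≤ 16 / n`
for every `n ≥ 1`. -/
theorem result :
    ∃ a b : ℕ → ℝ,
      (∀ ε : ℝ, 0 < ε → Summable (fun n : ℕ => |a n| ^ (2 + ε) + |b n| ^ (2 + ε))) ∧
      (∀ n : ℕ, 1 ≤ n → a n ^ 2 + b n ^ 2 ≤ 16 / n) ∧
      (∀ x : ℝ, ¬ ∃ L : ℝ, Tendsto (fun N : ℕ => partialSum a b N x) atTop (𝓝 L)) := by
  refine ⟨ca, cb, fun ε hε => summable_bound hε, fun n hn => sq_sum_le hn, ?_⟩
  rintro x ⟨L, hL⟩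
  have hC := hL.cauchySeq
  rw [Metric.cauchySeq_iff] at hC
  obtain ⟨K, hK⟩ := hC (1 / 100) (by norm_num)
  have hlt : K < 16 ^ (K + 1 + 2) := by
    calc K < 16 ^ K := Nat.lt_pow_self (by norm_num)
      _ ≤ 16 ^ (K + 1 + 2) := Nat.pow_le_pow_right (by norm_num) (by omega)
  refine block_oscillation x (K + 1) (by omega) (fun p q hp hq => ?_)
  have := hK q (by omega) p (by omega)
  rwa [Real.dist_eq] at this

end Pool.Agent.Results.MP_85199e_an.EverywhereDivergent
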